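import Mathlib

set_option autoImplicit false

namespace Pool.Agent.Results.MP_bb9d96_lc.Tight

open Filter

/-- `X` is defined by forbidding a set of words of length `M + 1`. -/
def MStep {A : Type} (M : ℕ) (X : Set (ℤ → A)) : Prop :=
  ∃ F : Set (Fin (M + 1) → A), X = {x | ∀ i : ℤ, (fun j : Fin (M + 1) => x (i + (j : ℕ))) ∉ F}

noncomputable def minStep {A : Type} (X : Set (ℤ → A)) : ℕ := sInf {M | MStep M X}

/-- Label sequences of bi-infinite walks; `R v a w` means there is an edge `v → w` labelled `a`. -/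
def XG {A V : Type} (R : V → A → V → Prop) : Set (ℤ → A) :=
  {x | ∃ P : ℤ → V, ∀ t, R (P t) (x t) (P (t + 1))}

def Det {A V : Type} (R : V → A → V → Prop) : Prop :=
  ∀ v a w w', R v a w → R v a w' → w = w'

def Sizes {A : Type} (X : Set (ℤ → A)) : Set ℕ :=
  {n | ∃ (V : Type) (_ : Finite V) (R : V → A → V → Prop), Det R ∧ XG R = X ∧ Nat.card V = n}

noncomputable def sd {A : Type} (X : Set (ℤ → A)) : ℕ := sInf (Sizes X)

lemma pig (x : ℤ → ℕ) : ∀ (m : ℕ) (s : ℤ), (∀ r, s ≤ r → r < s + 2 ^ m → x r < m) →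
    ∃ p q, s ≤ p ∧ p < q ∧ q < s + 2 ^ m ∧ x p = x q ∧ ∀ r, p < r → r < q → x r ≤ x p := by
  intro m
  induction m with
  | zero => intro s h; simpa using h s le_rfl (by simp)
  | succ m ih =>
    intro s h
    have e : (2 : ℤ) ^ (m + 1) = 2 ^ m + 2 ^ m := by ring
    have pos : (0 : ℤ) < 2 ^ m := by positivity
    rw [e] at h ⊢
    by_cases h1 : ∀ r, s ≤ r → r < s + 2 ^ m → x r < m
    · obtain ⟨p, q, a, b, c, d⟩ := ih s h1
      exact ⟨p, q, a, b, by omega, d⟩
    by_cases h2 : ∀ r, s + 2 ^ m ≤ r → r < s + 2 ^ m + 2 ^ m → x r < m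
    · obtain ⟨p, q, a, b, c, d⟩ := ih _ h2
      exact ⟨p, q, by omega, b, by omega, d⟩
    push Not at h1 h2
    obtain ⟨p, a, b, c⟩ := h1
    obtain ⟨q, a', b', c'⟩ := h2
    have := h p a (by omega)
    have := h q (by omega) (by omega)
    refine ⟨p, q, a, by omega, by omega, by omega, fun r h1 h2 => ?_⟩
    have := h r (by omega) (by omega)
    omega

lemma ruler (m : ℕ) : ∃ w : ℤ → ℕ, (∀ r, 0 < r → r < 2 ^ m → w r < m) ∧
    ∀ p q, 0 < p → p < q → q < 2 ^ m → w p = w q → ∃ r, p < r ∧ r < q ∧ w p < w r := by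
  induction m with
  | zero => exact ⟨fun _ => 0, fun r a b => by simp at b; omega, fun p q a b c => by
      simp at c; omega⟩
  | succ m ih =>
    obtain ⟨w, h1, h2⟩ := ih
    have e : (2 : ℤ) ^ (m + 1) = 2 ^ m + 2 ^ m := by ring
    rw [e]
    generalize (2 : ℤ) ^ m = T at *
    refine ⟨fun r => if r < T then w r else if r = T then m else w (r - T), fun r a b => ?_,
      fun p q a b c d => ?_⟩
    · have := h1 r a
      have := h1 (r - T)
      dsimp only
      split_ifs <;> omega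
    · have := h1 p a
      have := h1 (p - T)
      have := h1 (q - T)
      dsimp only at d
      by_cases hq : q < T
      · rw [if_pos hq, if_pos (by omega)] at d
        obtain ⟨r, x, y, z⟩ := h2 p q a b hq d
        exact ⟨r, x, y, by dsimp only; rwa [if_pos (by omega), if_pos (by omega)]⟩
      by_cases hp : T < p
      · rw [if_neg (by omega), if_neg (by omega), if_neg (by omega), if_neg (by omega)] at d
        obtain ⟨r, x, y, z⟩ := h2 (p - T) (q - T) (by omega) (by omega) (by omega) d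
        refine ⟨r + T, by omega, by omega, ?_⟩
        dsimp only
        rw [if_neg (by omega), if_neg (by omega), if_neg (by omega), if_neg (by omega)]
        simpa using z
      · refine ⟨T, ?_, ?_, ?_⟩
        · split_ifs at d <;> omega
        · split_ifs at d <;> omega
        · dsimp only
          rw [if_neg (lt_irrefl T), if_pos rfl]
          split_ifs at d ⊢ <;> omega

def la (n : ℕ) : Fin (n + 2) := ⟨n, by omega⟩
def lb (n : ℕ) : Fin (n + 2) := ⟨n + 1, by omega⟩

def X (n : ℕ) : Set (ℤ → Fin (n + 2)) :=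
  {x | (∀ t, x (t + 1) = la n → x t = la n) ∧ ∀ s t, s < t → x s = la n → x t = lb n →
    ∃ p q, s < p ∧ p < q ∧ q < t ∧ x p ≠ la n ∧ x p = x q ∧ ∀ r, p < r → r < q → x r ≤ x p}

def R (n : ℕ) (v : Fin (n + 2) × Prop × Prop × Prop) (c : Fin (n + 2))
    (w : Fin (n + 2) × Prop × Prop × Prop) : Prop :=
  w.1 = v.1 ∧ (w.2.1 ↔ c = la n) ∧ (w.2.2.1 ↔ c ≠ la n ∧ (c = v.1 ∨ (v.2.2.1 ∧ c ≤ v.1))) ∧
    (w.2.2.2 ↔ c ≠ la n ∧ (v.2.2.2 ∨ (v.2.2.1 ∧ c = v.1))) ∧ (c = la n → v.2.1) ∧
    (c = lb n → v.2.2.2)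

lemma det (n : ℕ) : Det (R n) := by
  rintro v a ⟨w1, w2, w3, w4⟩ ⟨u1, u2, u3, u4⟩ ⟨a1, a2, a3, a4, -⟩ ⟨b1, b2, b3, b4, -⟩
  dsimp only at *
  rw [a1, b1, propext (a2.trans b2.symm), propext (a3.trans b3.symm), propext (a4.trans b4.symm)]

lemma left {n : ℕ} {x : ℤ → Fin (n + 2)} (h : ∀ t, x (t + 1) = la n → x t = la n) {t : ℤ}
    (ht : x t = la n) (r : ℤ) (hr : r ≤ t) : x r = la n := by
  induction r, hr using Int.le_induction_down with
  | base => exact ht
  | pred r _ ih => exact h _ (by simpa using ih)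

lemma ab (n : ℕ) : la n ≠ lb n := by simp [la, lb]

lemma XG_eq (n : ℕ) : XG (R n) = X n := by
  refine Set.Subset.antisymm ?_ ?_
  · rintro x ⟨P, h⟩
    refine ⟨fun t ht => (h t).2.1.1 ((h (t + 1)).2.2.2.2.1 ht), fun s t hst hs ht => ?_⟩
    have key : ∀ u, s + 1 ≤ u → (P u).1 = (P s).1 ∧
        ((P u).2.2.1 → ∃ p, s < p ∧ p < u ∧ x p ≠ la n ∧ x p = (P s).1 ∧
          ∀ r, p < r → r < u → x r ≤ x p) ∧
        ((P u).2.2.2 → ∃ p q, s < p ∧ p < q ∧ q < u ∧ x p ≠ la n ∧ x p = x q ∧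
          ∀ r, p < r → r < q → x r ≤ x p) := by
      intro u hu
      induction u, hu using Int.le_induction with
      | base => exact ⟨(h s).1, fun o => (((h s).2.2.1.1 o).1 hs).elim,
          fun o => (((h s).2.2.2.1.1 o).1 hs).elim⟩
      | succ u hu ih =>
        obtain ⟨i1, i2, i3⟩ := ih
        refine ⟨(h u).1.trans i1, fun o => ?_, fun o => ?_⟩
        · obtain ⟨c, d | ⟨d, e⟩⟩ := (h u).2.2.1.1 o
          · exact ⟨u, by omega, by omega, c, d.trans i1, fun r _ _ => by omega⟩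
          · obtain ⟨p, a1, a2, a3, a4, a5⟩ := i2 d
            refine ⟨p, a1, by omega, a3, a4, fun r b1 b2 => ?_⟩
            rcases (show r < u ∨ r = u by omega) with b | rfl
            · exact a5 r b1 b
            · rw [a4, ← i1]; exact e
        · obtain ⟨c, d | ⟨d, e⟩⟩ := (h u).2.2.2.1.1 o
          · obtain ⟨p, q, a1, a2, a3, a4⟩ := i3 d
            exact ⟨p, q, a1, a2, by omega, a4⟩
          · obtain ⟨p, a1, a2, a3, a4, a5⟩ := i2 d
            exact ⟨p, u, a1, a2, by omega, a3, by rw [a4, e, i1], a5⟩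
    exact (key t (by omega)).2.2 ((h t).2.2.2.2.2 ht)
  · rintro x ⟨h1, h2⟩
    by_cases ha : ∃ s, x s = la n
    swap
    · push Not at ha
      refine ⟨fun _ => (lb n, False, True, True), fun t => ⟨rfl, by simp [ha t], ?_,
        by simp [ha t], ha t, fun _ => trivial⟩⟩
      have : x t ≤ lb n := by have := (x t).2; simp only [Fin.le_def, lb]; omega
      simp [ha t, this]
    obtain ⟨s, hs⟩ := ha
    let o : Fin (n + 2) → ℤ → Prop := fun j t =>
      ∃ p < t, x p = j ∧ ∀ r, p ≤ r → r < t → x r ≠ la n ∧ x r ≤ j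
    let d : Fin (n + 2) → ℤ → Prop := fun j t =>
      ∃ q < t, o j q ∧ x q = j ∧ ∀ r, q ≤ r → r < t → x r ≠ la n
    obtain ⟨j, hj⟩ : ∃ j, ∀ t, x t = lb n → d j t := by
      by_cases hb : ∃ t, x t = lb n
      swap
      · exact ⟨0, fun t ht => (hb ⟨t, ht⟩).elim⟩
      have gt : ∀ t, x t = lb n → s < t := fun t ht => by
        by_contra hc
        exact ab n ((left h1 hs t (by omega)).symm.trans ht)
      obtain ⟨t0, e0, m0⟩ := Int.exists_least_of_bdd ⟨s, fun t ht => (gt t ht).le⟩ hb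
      obtain ⟨p, q, a1, a2, a3, a4, a5, a6⟩ := h2 s t0 (gt _ e0) hs e0
      have na : ∀ r, p ≤ r → x r ≠ la n := fun r hr e => a4 (left h1 e p hr)
      refine ⟨x p, fun t ht => ⟨q, by have := m0 t ht; omega, ⟨p, a2, rfl, fun r b1 b2 =>
        ⟨na r b1, ?_⟩⟩, a5.symm, fun r b1 _ => na r (by omega)⟩⟩
      rcases (show p < r ∨ r = p by omega) with b | rfl
      · exact a6 r b b2
      · exact le_rfl
    refine ⟨fun t => (j, x (t - 1) = la n, o j t, d j t), fun t => ⟨rfl, by simp, ⟨?_, ?_⟩,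
      ⟨?_, ?_⟩, fun e => left h1 e _ (by omega), hj t⟩⟩
    · rintro ⟨p, a1, a2, a3⟩
      refine ⟨(a3 t (by omega) (by omega)).1, ?_⟩
      rcases (show p < t ∨ p = t by omega) with b | rfl
      · exact Or.inr ⟨⟨p, b, a2, fun r b1 b2 => a3 r b1 (by omega)⟩, (a3 t b.le (by omega)).2⟩
      · exact Or.inl a2
    · rintro ⟨c, e | ⟨⟨p, a1, a2, a3⟩, e⟩⟩
      · refine ⟨t, by omega, e, fun r b1 b2 => ?_⟩
        obtain rfl : r = t := by omega
        exact ⟨c, e.le⟩
      · refine ⟨p, by omega, a2, fun r b1 b2 => ?_⟩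
        rcases (show r < t ∨ r = t by omega) with b | rfl
        · exact a3 r b1 b
        · exact ⟨c, e⟩
    · rintro ⟨p, a1, a2, a3, a4⟩
      refine ⟨a4 t (by omega) (by omega), ?_⟩
      rcases (show p < t ∨ p = t by omega) with b | rfl
      · exact Or.inl ⟨p, b, a2, a3, fun r b1 b2 => a4 r b1 (by omega)⟩
      · exact Or.inr ⟨a2, a3⟩
    · rintro ⟨c, ⟨p, a1, a2, a3, a4⟩ | ⟨e, e'⟩⟩
      · refine ⟨p, by omega, a2, a3, fun r b1 b2 => ?_⟩
        rcases (show r < t ∨ r = t by omega) with b | rfl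
        · exact a4 r b1 b
        · exact c
      · refine ⟨t, by omega, e, e', fun r b1 b2 => ?_⟩
        obtain rfl : r = t := by omega
        exact c

lemma mstep_iff {A V : Type} (R : V → A → V → Prop) (M : ℕ) : MStep M (XG R) ↔
    ∀ x : ℤ → A, (∀ i : ℤ, ∃ y ∈ XG R, ∀ t, i ≤ t → t ≤ i + M → y t = x t) → x ∈ XG R := by
  constructor
  · rintro ⟨F, hF⟩ x hx
    rw [hF] at hx ⊢
    intro i
    obtain ⟨y, hy, e⟩ := hx i
    have : (fun j : Fin (M + 1) => x (i + (j : ℕ))) = fun j : Fin (M + 1) => y (i + (j : ℕ)) :=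
      funext fun j => (e _ (by omega) (by have := j.2; omega)).symm
    rw [this]
    exact hy i
  · intro h
    have sh : ∀ y ∈ XG R, ∀ i : ℤ, (fun t => y (t + i)) ∈ XG R := by
      rintro y ⟨P, hP⟩ i
      exact ⟨fun t => P (t + i), fun t => by simpa [add_right_comm] using hP (t + i)⟩
    refine ⟨{w | ¬ ∃ y ∈ XG R, ∀ j : Fin (M + 1), y (j : ℕ) = w j}, Set.Subset.antisymm ?_ ?_⟩
    · intro x hx i hi
      exact hi ⟨_, sh x hx i, fun j => by simp [add_comm]⟩
    · intro x hx
      refine h x fun i => ?_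
      obtain ⟨y, hy, e⟩ := not_not.1 (hx i)
      refine ⟨_, sh y hy (-i), fun t a b => ?_⟩
      have := e ⟨(t - i).toNat, by omega⟩
      simp only [Int.toNat_of_nonneg (show 0 ≤ t - i by omega)] at this
      simpa [sub_eq_add_neg] using this

lemma sft (n : ℕ) : MStep (2 ^ (n + 2) + 1) (X n) := by
  rw [← XG_eq, mstep_iff, XG_eq]
  intro x hx
  have pos : (0 : ℤ) < 2 ^ (n + 2) := by positivity
  have h1 : ∀ t, x (t + 1) = la n → x t = la n := fun t ht => by
    obtain ⟨y, hy, e⟩ := hx t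
    push_cast at e
    rw [← e t le_rfl (by omega)]
    exact hy.1 t ((e _ (by omega) (by omega)).trans ht)
  refine ⟨h1, fun s t hst hs ht => ?_⟩
  have lt : ∀ r, x r = la n → r < t := fun r hr => by
    by_contra hc
    exact ab n ((left h1 hr t (by omega)).symm.trans ht)
  obtain ⟨s1, e1, m1⟩ := Int.exists_greatest_of_bdd ⟨t, fun r hr => (lt r hr).le⟩ ⟨s, hs⟩
  have := m1 s hs
  by_cases hc : t ≤ s1 + (2 ^ (n + 2) + 1)
  · obtain ⟨y, hy, e⟩ := hx s1
    push_cast at e
    have := lt _ e1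
    obtain ⟨p, q, a1, a2, a3, a4, a5, a6⟩ := hy.2 s1 t this
      ((e _ le_rfl (by omega)).trans e1) ((e _ (by omega) hc).trans ht)
    rw [e p (by omega) (by omega)] at a4 a5 a6
    rw [e q (by omega) (by omega)] at a5
    exact ⟨p, q, by omega, a2, a3, a4, a5, fun r b1 b2 => by
      rw [← e r (by omega) (by omega)]; exact a6 r b1 b2⟩
  · obtain ⟨p, q, a1, a2, a3, a4, a5⟩ := pig (fun r => x r) (n + 2) (s1 + 1) fun r _ _ => (x r).2
    exact ⟨p, q, by omega, a2, by omega, fun e => by have := m1 p e; omega, Fin.ext a4, a5⟩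

lemma low (n M : ℕ) (hn : 0 < n) (h : MStep M (X n)) : 2 ^ n ≤ M := by
  by_contra hc
  have hM : (M : ℤ) < 2 ^ n := by exact_mod_cast not_le.1 hc
  rw [← XG_eq, mstep_iff, XG_eq] at h
  obtain ⟨w, h1, h2⟩ := ruler n
  generalize (2 : ℤ) ^ n = T at *
  let x : ℤ → Fin (n + 2) := fun r =>
    if h : r ≤ 0 then la n else if h' : r < T then ⟨w r, by have := h1 r (by omega) h'; omega⟩
      else lb n
  have xa : ∀ r, x r = la n ↔ r ≤ 0 := fun r => by
    have := h1 r
    simp only [x, la, lb]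
    split_ifs <;> simp <;> omega
  have xb : ∀ r, x r = lb n ↔ T ≤ r := fun r => by
    have := h1 r
    simp only [x, la, lb]
    split_ifs <;> simp <;> omega
  have xw : ∀ r, 0 < r → r < T → (x r : ℕ) = w r := fun r a b => by
    simp only [x]
    rw [dif_neg (by omega), dif_pos b]
  have : x ∈ X n := by
    refine h x fun i => ?_
    by_cases hi : 0 < i
    · have na : ∀ r, (if x r = la n then lb n else x r) ≠ la n := fun r => by
        split_ifs with e
        · exact (ab n).symm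
        · exact e
      exact ⟨fun r => if x r = la n then lb n else x r, ⟨fun t e => (na _ e).elim,
        fun s t _ e => (na _ e).elim⟩, fun t a b => if_neg (by rw [xa]; omega)⟩
    · have za : (0 : Fin (n + 2)) ≠ la n := by simp [la, Fin.ext_iff]; omega
      refine ⟨fun r => if x r = lb n then 0 else x r, ⟨fun t e => ?_, fun s t _ _ e => ?_⟩,
        fun t a b => if_neg (by rw [xb]; omega)⟩
      · dsimp only at e ⊢
        split_ifs at e with e'
        · exact (za e).elim
        · rw [xa] at e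
          rw [if_neg (by rw [xb]; omega), xa]
          omega
      · dsimp only at e
        split_ifs at e with e'
        · simp [lb, Fin.ext_iff] at e
        · exact (e' e).elim
  obtain ⟨p, q, a1, a2, a3, -, a5, a6⟩ := this.2 0 T (by omega) ((xa 0).2 le_rfl) ((xb T).2 le_rfl)
  obtain ⟨r, b1, b2, b3⟩ := h2 p q a1 a2 a3 (by rw [← xw p a1 (by omega), a5, xw q (by omega) a3])
  have := a6 r b1 b2
  rw [Fin.le_def, xw p a1 (by omega), xw r (by omega) (by omega)] at this
  omega

lemma mem (n : ℕ) : 8 * (n + 2) ∈ Sizes (X n) :=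
  ⟨_, inferInstance, R n, det n, XG_eq n, by simp; ring⟩

lemma big (n m : ℕ) (h : m ∈ Sizes (X n)) : n ≤ m := by
  obtain ⟨V, _, R, -, e, rfl⟩ := h
  let z : Fin n → Fin n → ℤ → Fin (n + 2) := fun i j r =>
    if r < 0 then la n else if r = 0 then ⟨i, by omega⟩ else if r = 1 then ⟨j, by omega⟩ else lb n
  have za : ∀ i j r, z i j r = la n ↔ r < 0 := fun i j r => by
    have := i.2
    have := j.2
    simp only [z, la, lb]
    split_ifs <;> simp <;> omega
  have zb : ∀ i j r, z i j r = lb n ↔ 1 < r := fun i j r => by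
    have := i.2
    have := j.2
    simp only [z, la, lb]
    split_ifs <;> simp <;> omega
  have hz : ∀ i, z i i ∈ XG R := fun i => by
    rw [e]
    refine ⟨fun t h => ?_, fun s t _ a b => ?_⟩
    · rw [za] at h ⊢
      omega
    · rw [za] at a
      rw [zb] at b
      exact ⟨0, 1, a, by omega, b, by simp [za], by simp [z], fun r _ _ => by omega⟩
  choose P hP using hz
  have inj : Function.Injective fun i => P i 1 := fun i j h => by
    have : z i j ∈ XG R := by
      refine ⟨fun t => if t ≤ 0 then P i t else P j t, fun t => ?_⟩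
      dsimp only at h ⊢
      rcases lt_trichotomy t 0 with a | rfl | a
      · rw [if_pos a.le, if_pos (by omega)]
        simpa [z, a] using hP i t
      · have := hP i 0
        simp only [zero_add] at this ⊢
        rw [if_pos le_rfl, if_neg (by omega), ← h]
        simpa [z] using this
      · rw [if_neg (by omega), if_neg (by omega)]
        have := hP j t
        simp only [z] at this ⊢
        rwa [if_neg (by omega), if_neg (by omega)] at this ⊢
    rw [e] at this
    obtain ⟨p, q, a1, a2, a3, -, a5, -⟩ := this.2 (-1) 2 (by omega) (by simp [za]) (by simp [zb])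
    obtain rfl : p = 0 := by omega
    obtain rfl : q = 1 := by omega
    simpa [z, Fin.ext_iff] using a5
  simpa using Nat.card_le_card_of_injective _ inj

theorem result : ∃ c : ℝ, 0 < c ∧ ∃ (m : ℕ → ℕ) (Y : ∀ k, Set (ℤ → Fin (m k))),
    (∀ k, (∃ M, MStep M (Y k)) ∧ (Sizes (Y k)).Nonempty) ∧
    Tendsto (fun k => sd (Y k)) atTop atTop ∧
    ∀ k, (2 : ℝ) ^ (c * sd (Y k)) ≤ minStep (Y k) := by
  refine ⟨1 / 24, by norm_num, fun k => k + 1 + 2, fun k => X (k + 1),
    fun k => ⟨⟨_, sft _⟩, _, mem _⟩, ?_, fun k => ?_⟩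
  · refine tendsto_atTop_mono (fun k => ?_) tendsto_id
    exact (Nat.le_succ k).trans (big _ _ (Nat.sInf_mem ⟨_, mem _⟩))
  · have a : sd (X (k + 1)) ≤ 8 * (k + 1 + 2) := Nat.sInf_le (mem _)
    have b : 2 ^ (k + 1) ≤ minStep (X (k + 1)) :=
      low _ _ (by omega) (Nat.sInf_mem (s := {M | MStep M (X (k + 1))}) ⟨_, sft _⟩)
    have a' : (sd (X (k + 1)) : ℝ) ≤ 8 * (k + 1 + 2) := by exact_mod_cast a
    have b' : (2 : ℝ) ^ (k + 1) ≤ minStep (X (k + 1)) := by exact_mod_cast b
    refine le_trans ?_ b'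
    rw [← Real.rpow_natCast]
    refine Real.rpow_le_rpow_of_exponent_le (by norm_num) ?_
    push_cast
    have : (0 : ℝ) ≤ k := by positivity
    linarith

end Pool.Agent.Results.MP_bb9d96_lc.Tight
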